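import Pool.Agent.Y8.Stm3
import Pool.Agent.W930.MD.Scale

set_option autoImplicit false

/-!
Scaling to viscosity one for suitable weak periodic solutions (helper96, for helper8).
-/

open MeasureTheory Set Metric
open scoped ContDiff

namespace Pool.Agent.Y96.NS

open H459R3.NS W221.NS Pool.Agent.Y8 Pool.Agent.W930.MD

/-! ### Change of variables in time -/

theorem ind_div {ν : ℝ} (G : Set ℝ) (g : ℝ → ℝ) :
    ({t : ℝ | t / ν ∈ G}).indicator (fun t => g (t / ν)) = fun t => G.indicator g (t / ν) := by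
  funext t
  by_cases h : t / ν ∈ G
  · rw [indicator_of_mem (show t ∈ {t : ℝ | t / ν ∈ G} from h), indicator_of_mem h]
  · rw [indicator_of_notMem (show t ∉ {t : ℝ | t / ν ∈ G} from h), indicator_of_notMem h]

theorem open_div {ν : ℝ} {G : Set ℝ} (hG : IsOpen G) : IsOpen {t : ℝ | t / ν ∈ G} :=
  hG.preimage (by fun_prop : Continuous fun t : ℝ => t / ν)

theorem int_div {ν : ℝ} (hν : 0 < ν) {G : Set ℝ} (hG : IsOpen G) (g : ℝ → ℝ) :
    ∫ t in {t : ℝ | t / ν ∈ G}, g (t / ν) = ν * ∫ t in G, g t := by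
  rw [← integral_indicator (open_div hG).measurableSet, ind_div, Measure.integral_comp_div,
    integral_indicator hG.measurableSet, abs_of_pos hν, smul_eq_mul]

theorem ion_div {ν : ℝ} (hν : 0 < ν) {G : Set ℝ} (hG : IsOpen G) {g : ℝ → ℝ}
    (hg : IntegrableOn g G) : IntegrableOn (fun t => g (t / ν)) {t : ℝ | t / ν ∈ G} := by
  rw [← integrable_indicator_iff (open_div hG).measurableSet, ind_div]
  exact ((integrable_indicator_iff hG.measurableSet).2 hg).comp_div hν.ne'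

/-! ### Scaling of the spatial quantities -/

theorem pd_sm (c : ℝ) (v : V → V) (i j : Fin 3) (x : V) :
    pd j (fun y => (c • v y) i) x = c * pd j (fun y => v y i) x :=
  pd_const_mul c j (fun y => v y i) x

theorem energy_sm (c : ℝ) (v : V → V) : energy (fun x => c • v x) = c ^ 2 * energy v := by
  unfold energy
  rw [Finset.mul_sum]
  refine Finset.sum_congr rfl fun i _ => ?_
  rw [← integral_const_mul]
  refine integral_congr_ae (ae_of_all _ fun x => ?_)
  simp only [Pi.smul_apply, smul_eq_mul]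
  ring

theorem enstrophy_sm (c : ℝ) (v : V → V) :
    enstrophy (fun x => c • v x) = c ^ 2 * enstrophy v := by
  unfold enstrophy
  rw [Finset.mul_sum]
  refine Finset.sum_congr rfl fun i _ => ?_
  rw [Finset.mul_sum]
  refine Finset.sum_congr rfl fun j _ => ?_
  rw [← integral_const_mul]
  refine integral_congr_ae (ae_of_all _ fun x => ?_)
  simp only
  rw [pd_sm]
  ring

theorem nsq_sm (c : ℝ) (v : V → V) (x : V) : nsq (fun x => c • v x) x = c ^ 2 * nsq v x := by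
  unfold nsq
  rw [Finset.mul_sum]
  refine Finset.sum_congr rfl fun i _ => ?_
  simp only [Pi.smul_apply, smul_eq_mul]
  ring

theorem gsq_sm (c : ℝ) (v : V → V) (x : V) : gsq (fun x => c • v x) x = c ^ 2 * gsq v x := by
  unfold gsq
  rw [Finset.mul_sum]
  refine Finset.sum_congr rfl fun i _ => ?_
  rw [Finset.mul_sum]
  refine Finset.sum_congr rfl fun j _ => ?_
  rw [pd_sm]
  ring

theorem adv_sm (c : ℝ) (v : V → V) (f : V → ℝ) (x : V) :
    adv (fun x => c • v x) f x = c * adv v f x := by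
  unfold adv
  rw [Finset.mul_sum]
  refine Finset.sum_congr rfl fun i _ => ?_
  simp only [Pi.smul_apply, smul_eq_mul]
  ring

/-! ### Test functions -/

theorem deriv_mul' {ν : ℝ} (hν : 0 < ν) (f : ℝ → ℝ) (t : ℝ) :
    deriv f t = ν⁻¹ * deriv (fun s => f (ν * s)) (t / ν) := by
  rw [deriv_comp_mul_left, smul_eq_mul, ← mul_assoc, inv_mul_cancel₀ hν.ne', one_mul,
    mul_div_cancel₀ t hν.ne']

theorem test_mul {ν T : ℝ} (hν : 0 < ν) {φ : ℝ → V → ℝ} (h : Test (ν * T) φ) :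
    Test T (fun s x => φ (ν * s) x) := by
  set e : ℝ × V ≃ₜ ℝ × V := (Homeomorph.mulLeft₀ ν hν.ne').prodCongr (Homeomorph.refl V) with he
  have hfe : (fun z : ℝ × V => φ (ν * z.1) z.2) = (fun z : ℝ × V => φ z.1 z.2) ∘ e := rfl
  refine ⟨?_, ?_, ?_⟩
  · exact h.smooth.comp (by fun_prop : ContDiff ℝ ∞ fun z : ℝ × V => (ν * z.1, z.2))
  · rw [hfe]
    exact h.cpt.comp_homeomorph e
  · rw [hfe, tsupport_comp_eq_preimage]
    rintro ⟨s, x⟩ hz
    have h1 := h.supp hz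
    have h2 : (ν * s, x) ∈ Ioo 0 (ν * T) ×ˢ (univ : Set V) := h1
    refine ⟨⟨?_, ?_⟩, mem_univ _⟩
    · exact (mul_pos_iff_of_pos_left hν).1 h2.1.1
    · exact lt_of_mul_lt_mul_left h2.1.2 hν.le

theorem DM_sc {ν : ℝ} (hν : 0 < ν) (u : ℝ → V → V) (p : ℝ → V → ℝ) (φ : ℝ → V → ℝ) (i : Fin 3)
    (t : ℝ) : DM 1 (fun t x => ν⁻¹ • u (t / ν) x) (fun t x => (ν ^ 2)⁻¹ * p (t / ν) x) φ i t =
      (ν ^ 2)⁻¹ * DM ν u p (fun s x => φ (ν * s) x) i (t / ν) := by
  unfold DM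
  rw [← integral_const_mul]
  refine integral_congr_ae (ae_of_all _ fun x => ?_)
  simp only
  rw [deriv_mul' hν (fun s => φ s x) t, adv_sm, mul_div_cancel₀ t hν.ne', Pi.smul_apply,
    smul_eq_mul]
  field_simp

theorem DD_sc {ν : ℝ} (hν : 0 < ν) (u : ℝ → V → V) (p : ℝ → V → ℝ) (φ : ℝ → V → ℝ)
    (t : ℝ) : DD 1 (fun t x => ν⁻¹ • u (t / ν) x) (fun t x => (ν ^ 2)⁻¹ * p (t / ν) x) φ t =
      (ν ^ 3)⁻¹ * DD ν u p (fun s x => φ (ν * s) x) (t / ν) := by
  unfold DD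
  rw [mul_add, mul_add, ← integral_const_mul (ν ^ 3)⁻¹, ← integral_const_mul (ν ^ 3)⁻¹]
  have e1 : (-(2 * 1) * ∫ x, gsq (fun x => ν⁻¹ • u (t / ν) x) x * φ t x : ℝ) =
      (ν ^ 3)⁻¹ * (-(2 * ν) * ∫ x, gsq (u (t / ν)) x * φ (ν * (t / ν)) x) := by
    have h1 : ∀ x, gsq (fun x => ν⁻¹ • u (t / ν) x) x * φ t x =
        ν⁻¹ ^ 2 * (gsq (u (t / ν)) x * φ (ν * (t / ν)) x) := by
      intro x
      rw [gsq_sm, mul_div_cancel₀ t hν.ne']
      ring
    simp_rw [h1]
    rw [integral_const_mul]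
    field_simp
  rw [e1]
  congr 1
  · congr 1
    refine integral_congr_ae (ae_of_all _ fun x => ?_)
    simp only
    rw [nsq_sm, deriv_mul' hν (fun s => φ s x) t, mul_div_cancel₀ t hν.ne']
    field_simp
  · refine integral_congr_ae (ae_of_all _ fun x => ?_)
    simp only
    rw [nsq_sm, adv_sm, mul_div_cancel₀ t hν.ne']
    field_simp

theorem t_WSCAL : S_WSCAL := by
  intro ν T E D G u p hν h
  have hmaps : MapsTo (fun z : ℝ × V => (z.1 / ν, z.2)) ({t | t / ν ∈ G} ×ˢ (univ : Set V))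
      (G ×ˢ (univ : Set V)) := by
    rintro ⟨t, x⟩ ⟨ht, -⟩
    exact ⟨ht, mem_univ _⟩
  have hlin : ContDiff ℝ ∞ (fun z : ℝ × V => (z.1 / ν, z.2)) := by fun_prop
  refine ⟨⟨?_, ?_, ?_, ?_, ?_, ?_, ?_, ?_, ?_, ?_, ?_, ?_, ?_, ?_, ?_⟩, ?_⟩
  · exact open_div h.openG
  · intro t ht
    have h1 := h.subG ht
    refine ⟨?_, ?_⟩
    · have := h1.1
      exact (div_pos_iff_of_pos_right hν).1 this
    · have := h1.2
      rw [div_lt_iff₀ hν] at this
      linarith
  · have h1 : Ioo 0 (ν * T) \ {t | t / ν ∈ G} = (fun t => t * ν⁻¹) ⁻¹' (Ioo 0 T \ G) := by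
      ext t
      simp only [mem_sdiff, mem_Ioo, mem_setOf_eq, mem_preimage, div_eq_mul_inv]
      have e1 : 0 < t ↔ 0 < t * ν⁻¹ := by
        rw [← div_eq_mul_inv, div_pos_iff_of_pos_right hν]
      have e2 : t < ν * T ↔ t * ν⁻¹ < T := by
        rw [← div_eq_mul_inv, div_lt_iff₀ hν, mul_comm ν T]
      rw [e1, e2]
    rw [h1, Real.volume_preimage_mul_right (inv_ne_zero hν.ne'), h.fullG, mul_zero]
  · exact (h.smooth_u.comp hlin.contDiffOn hmaps).const_smul ν⁻¹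
  · exact (h.smooth_p.comp hlin.contDiffOn hmaps).const_smul ((ν ^ 2)⁻¹)
  · intro t ht i x
    show ν⁻¹ • u (t / ν) (x + Pi.single i 1) = ν⁻¹ • u (t / ν) x
    rw [h.per_u _ ht i x]
  · intro t ht i x
    show (ν ^ 2)⁻¹ * p (t / ν) (x + Pi.single i 1) = (ν ^ 2)⁻¹ * p (t / ν) x
    rw [h.per_p _ ht i x]
  · intro t ht x
    have h1 := h.divfree _ ht x
    have h2 : ∀ i, pd i (fun y => (ν⁻¹ • u (t / ν) y) i) x =
        ν⁻¹ * pd i (fun y => u (t / ν) y i) x := fun i => pd_sm ν⁻¹ (u (t / ν)) i i x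
    rw [Finset.sum_congr rfl fun i _ => h2 i, ← Finset.mul_sum, h1, mul_zero]
  · intro t ht x i
    have h1 := h.momentum _ ht x i
    have e1 : deriv (fun s => (ν⁻¹ • u (s / ν) x) i) t =
        ν⁻¹ * (ν⁻¹ * deriv (fun s => u s x i) (t / ν)) :=
      deriv_scale ν (fun s => u s x i) t
    have e2 : ∀ j, pd j (fun y => (ν⁻¹ • u (t / ν) y) i) =
        fun x => ν⁻¹ * pd j (fun y => u (t / ν) y i) x := by
      intro j
      funext x
      exact pd_const_mul ν⁻¹ j (fun y => u (t / ν) y i) x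
    have e3 : ∀ j, pd j (pd j (fun y => (ν⁻¹ • u (t / ν) y) i)) x =
        ν⁻¹ * pd j (pd j (fun y => u (t / ν) y i)) x := by
      intro j
      rw [e2 j]
      exact pd_const_mul ν⁻¹ j _ x
    have e4 : pd i (fun x => (ν ^ 2)⁻¹ * p (t / ν) x) x = (ν ^ 2)⁻¹ * pd i (p (t / ν)) x :=
      pd_const_mul _ i _ x
    rw [e1, e4]
    simp_rw [e3, e2, Pi.smul_apply, smul_eq_mul]
    rw [← Finset.mul_sum, one_mul]
    have e5 : ∑ j, ν⁻¹ * u (t / ν) x j * (ν⁻¹ * pd j (fun y => u (t / ν) y i) x) =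
        ν⁻¹ * (ν⁻¹ * ∑ j, u (t / ν) x j * pd j (fun y => u (t / ν) y i) x) := by
      rw [Finset.mul_sum, Finset.mul_sum]
      refine Finset.sum_congr rfl fun j _ => ?_
      ring
    rw [e5]
    have e6 : (ν ^ 2)⁻¹ = ν⁻¹ * ν⁻¹ := by
      rw [sq, mul_inv]
    have e7 : ν⁻¹ * ν⁻¹ * ν = ν⁻¹ := by
      rw [mul_assoc, inv_mul_cancel₀ hν.ne', mul_one]
    rw [e6]
    have h2 := congrArg (fun z => ν⁻¹ * ν⁻¹ * z) h1
    simp only [mul_add, mul_sub] at h2
    rw [← mul_assoc, ← mul_assoc, h2, ← mul_assoc, e7]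
  · intro t ht
    rw [energy_sm, div_pow, inv_pow, div_eq_inv_mul (E ^ 2)]
    exact mul_le_mul_of_nonneg_left (h.energy_le _ ht) (by positivity)
  · simp_rw [enstrophy_sm]
    exact (ion_div hν h.openG h.enst_int).const_mul _
  · simp_rw [enstrophy_sm]
    rw [integral_const_mul, int_div hν h.openG (fun t => enstrophy (u t))]
    have h1 : ν⁻¹ ^ 2 * (ν * ∫ t in G, enstrophy (u t)) = (∫ t in G, enstrophy (u t)) / ν := by
      field_simp
    rw [h1]
    exact div_le_div_of_nonneg_right h.enst_le hν.le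
  · have h1 : ∀ t, (∫ x in cube, |(ν ^ 2)⁻¹ * p (t / ν) x| ^ (3 / 2 : ℝ)) =
        ((ν ^ 2)⁻¹) ^ (3 / 2 : ℝ) * ∫ x in cube, |p (t / ν) x| ^ (3 / 2 : ℝ) := by
      intro t
      rw [← integral_const_mul]
      refine integral_congr_ae (ae_of_all _ fun x => ?_)
      simp only
      rw [abs_mul, Real.mul_rpow (abs_nonneg _) (abs_nonneg _), abs_of_nonneg (by positivity)]
    simp_rw [h1]
    exact (ion_div (g := fun t => ∫ x in cube, |p t x| ^ (3 / 2 : ℝ)) hν h.openG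
      h.press).const_mul _
  · intro φ hφ i
    simp_rw [DM_sc hν]
    rw [integral_const_mul, int_div hν h.openG (fun t => DM ν u p (fun s x => φ (ν * s) x) i t),
      h.weak _ (test_mul hν hφ) i, mul_zero, mul_zero]
  · intro φ hφ h0
    simp_rw [DD_sc hν]
    rw [integral_const_mul, int_div hν h.openG (fun t => DD ν u p (fun s x => φ (ν * s) x) t)]
    have h1 := h.local_energy _ (test_mul hν hφ) (fun t x => h0 _ x)
    positivity
  · intro t x hs δ hδ B
    obtain ⟨s, hsG, hst, y, hy, hB⟩ := hs (min (δ / ν) δ) (by positivity) (ν * B)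
    refine ⟨ν * s, ?_, ?_, y, ?_, ?_⟩
    · show ν * s / ν ∈ G
      rwa [mul_div_cancel_left₀ s hν.ne']
    · rw [← mul_sub, abs_mul, abs_of_pos hν]
      have h1 := lt_of_lt_of_le hst (min_le_left _ _)
      rw [lt_div_iff₀ hν] at h1
      linarith
    · exact ball_subset_ball (min_le_right _ _) hy
    · show B < ‖ν⁻¹ • u (ν * s / ν) y‖
      rw [mul_div_cancel_left₀ s hν.ne', norm_smul, Real.norm_of_nonneg (inv_pos.2 hν).le,
        ← div_eq_inv_mul, lt_div_iff₀ hν, mul_comm B ν]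
      exact hB

theorem t_FIN : S_WSCAL → S_FIN1 → S_FIN := by
  intro hsc hfin ν T E D a b hν ha hb
  obtain ⟨C, hC, h⟩ := hfin (ν * T) (E / ν) (D / ν) (ν * a) (ν * b) (by positivity)
    (mul_lt_mul_of_pos_left hb hν)
  set c : ℝ := min 1 (√ν) with hc
  have hc0 : 0 < c := lt_min one_pos (Real.sqrt_pos.2 hν)
  have hc1 : c ≤ 1 := min_le_left _ _
  have hc2 : c ≤ √ν := min_le_right _ _
  have hc3 : c ^ 2 ≤ ν := by
    calc c ^ 2 ≤ √ν ^ 2 := pow_le_pow_left₀ hc0.le hc2 2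
      _ = ν := Real.sq_sqrt hν.le
  refine ⟨C * c ^ (-(25 / 23) : ℝ), by positivity, fun G u p hT r hr hr1 S hS hz => ?_⟩
  obtain ⟨hT', hsing⟩ := hsc ν T E D G u p hν hT
  classical
  set f : ℝ × V → ℝ × V := fun z => (ν * z.1, z.2) with hf
  have hinj : Function.Injective f := by
    rintro ⟨t, x⟩ ⟨t', x'⟩ hh
    simp only [hf, Prod.mk.injEq] at hh
    obtain ⟨h1, h2⟩ := hh
    rw [mul_left_cancel₀ hν.ne' h1, h2]
  have hcard : (S.image f).card = S.card := Finset.card_image_of_injective S hinj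
  have hsep : Sep (c * r) (S.image f) := by
    intro z hz' w hw' hne
    obtain ⟨z, hzS, rfl⟩ := Finset.mem_image.1 hz'
    obtain ⟨w, hwS, rfl⟩ := Finset.mem_image.1 hw'
    have hne' : z ≠ w := fun e => hne (by rw [e])
    rcases hS z hzS w hwS hne' with h1 | h1
    · left
      show (c * r) ^ 2 ≤ |ν * z.1 - ν * w.1|
      rw [← mul_sub, abs_mul, abs_of_pos hν, mul_pow]
      exact mul_le_mul hc3 h1 (by positivity) hν.le
    · right
      show c * r ≤ ‖z.2 - w.2‖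
      refine le_trans ?_ h1
      nlinarith
  have h1 := h {t | t / ν ∈ G} _ _ hT' (c * r) (by positivity) (by nlinarith) (S.image f) hsep (by
    intro z hz'
    obtain ⟨z, hzS, rfl⟩ := Finset.mem_image.1 hz'
    obtain ⟨h2, h3, h4⟩ := hz z hzS
    refine ⟨⟨?_, ?_⟩, h3, hsing z.1 z.2 h4⟩
    · exact mul_le_mul_of_nonneg_left h2.1 hν.le
    · exact mul_le_mul_of_nonneg_left h2.2 hν.le)
  rw [hcard, Real.mul_rpow hc0.le hr.le, ← mul_assoc] at h1
  exact h1

end Pool.Agent.Y96.NS
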